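import Mathlib
import Pool.Agent.TH130.CI.Cz
import Pool.Agent.H135R2.VS.Der

/-! # No linear syzygies between three ternary quadratic forms without common zeros -/

set_option autoImplicit false

namespace Pool.Agent.X288.NC

open MvPolynomial

/-- the members of an ideal generated by forms of degree two have no terms of degree at most one -/
theorem coeff_zero_of_mem_span {R : Type} [CommRing R] {n : ℕ} {S : Set (MvPolynomial (Fin n) R)}
    (hS : ∀ s ∈ S, s.IsHomogeneous 2) {p : MvPolynomial (Fin n) R} (hp : p ∈ Ideal.span S)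
    (d : Fin n →₀ ℕ) (hd : d.degree < 2) : coeff d p = 0 := by
  induction hp using Submodule.span_induction generalizing d with
  | mem x hx =>
    exact (hS x hx).coeff_eq_zero (by omega)
  | zero => simp
  | add x y _ _ hx hy => rw [coeff_add, hx d hd, hy d hd, add_zero]
  | smul a x _ hx =>
    rw [smul_eq_mul, coeff_mul]
    refine Finset.sum_eq_zero fun e he => ?_
    rw [Finset.HasAntidiagonal.mem_antidiagonal] at he
    rw [hx e.2, mul_zero]
    have := congrArg Finsupp.degree he
    rw [map_add] at this
    omega

theorem syz {K : Type} [Field K] [IsAlgClosed K] (f : Fin 3 → MvPolynomial (Fin 3) K)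
    (hf : ∀ i, (f i).IsHomogeneous 2)
    (hz : ∀ x : Fin 3 → K, (∀ i, eval x (f i) = 0) → x = 0)
    (L : Fin 3 → MvPolynomial (Fin 3) K) (hL : ∀ i, (L i).IsHomogeneous 1)
    (h : ∑ i, L i * f i = 0) (m : Fin 3) : L m = 0 := by
  let s : Equiv.Perm (Fin 3) := Equiv.swap m 2
  have hreg := TH130CI.reg_of_common_zero (fun i => f (s i)) (fun _ => 2) (fun _ => by norm_num)
    (fun i => hf _) (fun x hx => hz x fun i => by
      have := hx (s.symm i)
      simpa using this)
  have h2 := hreg 2 (L m)
  have hs2 : s 2 = m := Equiv.swap_apply_right m 2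
  have hmem : L m ∈ Ideal.span ((fun i => f (s i)) '' {j | j < 2}) := by
    apply h2
    simp only [hs2]
    have h3 : ∑ i, L (s i) * f (s i) = 0 := by
      rw [Equiv.sum_comp s (fun i => L i * f i)]
      exact h
    rw [Fin.sum_univ_three, hs2] at h3
    have h4 : f m * L m = -(L (s 0)) * f (s 0) + -(L (s 1)) * f (s 1) := by
      linear_combination h3
    rw [h4]
    refine Ideal.add_mem _ (Ideal.mul_mem_left _ _ (Ideal.subset_span ⟨0, by simp, rfl⟩))
      (Ideal.mul_mem_left _ _ (Ideal.subset_span ⟨1, ?_, rfl⟩))
    change (1 : Fin 3) < 2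
    decide
  ext d
  rw [coeff_zero]
  by_cases hd : d.degree = 1
  · refine coeff_zero_of_mem_span ?_ hmem d (by omega)
    rintro _ ⟨j, _, rfl⟩
    exact hf _
  · exact (hL m).coeff_eq_zero hd

/-- elements killed by all derivations over an algebraically closed subfield belong to it -/
theorem mem_of_der (k : Subfield ℂ) (hk : IsAlgClosed k) (z : ℂ)
    (h : ∀ D : Derivation k ℂ ℂ, D z = 0) : z ∈ k := by
  by_cases ht : Transcendental k z
  · have h1 : AlgebraicIndependent k (fun _ : Unit => z) :=
      algebraicIndependent_unique_type_iff.2 ht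
    obtain ⟨D, hD⟩ := Pool.Agent.H135R2.VS.exists_der h1 (fun _ => (1 : ℂ))
    have := hD ()
    rw [h D] at this
    exact absurd this zero_ne_one
  · have halg : IsAlgebraic k z := by
      rw [Transcendental, not_not] at ht
      exact ht
    have h2 := IsAlgClosed.degree_eq_one_of_irreducible k (minpoly.irreducible halg.isIntegral)
    obtain ⟨y, hy⟩ := minpoly.mem_range_of_degree_eq_one k z h2
    rw [← hy]
    exact y.2

end Pool.Agent.X288.NC
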