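import Mathlib
import Pool.Agent.Y201.LI.Stm2
import Pool.Agent.Y201.C3.Tri
import Pool.Agent.X288.NC.Syz

/-! # Planes in a smooth cubic fourfold are rigid -/

set_option autoImplicit false

namespace Pool.Agent.X288.NC

open MvPolynomial Pool.Agent.Y201.C3 Pool.Agent.Y201.LI

noncomputable section

variable {T : Fin 6 → Fin 6 → Fin 6 → ℂ}

/-- the linear form `x ↦ B (x, y, z)` -/
def lin (T : Fin 6 → Fin 6 → Fin 6 → ℂ) (y z : Fin 6 → ℂ) : (Fin 6 → ℂ) →ₗ[ℂ] ℂ where
  toFun x := Bf T x y z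
  map_add' x x' := Bg_add1 T x x' y z
  map_smul' c x := Bg_smul1 T c x y z

theorem lin_apply (x y z : Fin 6 → ℂ) : lin T y z x = Bf T x y z := rfl

theorem sw12 (hT : SymT T) (x y z : Fin 6 → ℂ) : Bf T x y z = Bf T y x z := Bg_swap12 hT x y z

theorem sw23 (hT : SymT T) (x y z : Fin 6 → ℂ) : Bf T x y z = Bf T x z y := Bg_swap23 hT x y z

theorem sw13 (hT : SymT T) (x y z : Fin 6 → ℂ) : Bf T x y z = Bf T z y x := by
  rw [sw12 hT, sw23 hT, sw12 hT]

/-- the form vanishes on the span -/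
theorem zero_of_mem (hT : SymT T) {w : Fin 3 → Fin 6 → ℂ}
    (h : ∀ i j l, Bf T (w i) (w j) (w l) = 0) {x y z : Fin 6 → ℂ}
    (hx : x ∈ Submodule.span ℂ (Set.range w)) (hy : y ∈ Submodule.span ℂ (Set.range w))
    (hz : z ∈ Submodule.span ℂ (Set.range w)) : Bf T x y z = 0 := by
  have key : ∀ y z : Fin 6 → ℂ, (∀ i, Bf T (w i) y z = 0) →
      ∀ x ∈ Submodule.span ℂ (Set.range w), Bf T x y z = 0 := by
    intro y z h x hx
    have h1 : Submodule.span ℂ (Set.range w) ≤ LinearMap.ker (lin T y z) := by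
      rw [Submodule.span_le]
      rintro _ ⟨i, rfl⟩
      exact h i
    exact h1 hx
  have h1 : ∀ i j, ∀ x ∈ Submodule.span ℂ (Set.range w), Bf T (w i) (w j) x = 0 := by
    intro i j x hx
    rw [sw13 hT]
    exact key _ _ (fun l => by rw [sw13 hT]; exact h i j l) x hx
  have h2 : ∀ i, ∀ x ∈ Submodule.span ℂ (Set.range w), ∀ y ∈ Submodule.span ℂ (Set.range w),
      Bf T (w i) x y = 0 := by
    intro i x hx y hy
    rw [sw12 hT]
    exact key _ _ (fun l => by rw [sw12 hT]; exact h1 i l y hy) x hx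
  exact key _ _ (fun l => h2 l y hy z hz) x hx

theorem single_form (i : Fin 6) (p q : Fin 6 → ℂ) :
    Bf T (Pi.single i 1) p q = ∑ j, ∑ k, T i j k * p j * q k := by
  unfold Bf
  rw [Finset.sum_eq_single i]
  · simp
  · intro a _ ha
    refine Finset.sum_eq_zero fun j _ => Finset.sum_eq_zero fun k _ => ?_
    rw [Pi.single_eq_of_ne ha]
    simp
  · simp

theorem der_Bf (k : Subfield ℂ) (hTk : ∀ i j l, T i j l ∈ k) (D : Derivation k ℂ ℂ)
    (x y z : Fin 6 → ℂ) : D (Bf T x y z) =
      Bf T (fun j => D (x j)) y z + Bf T x (fun j => D (y j)) z + Bf T x y (fun j => D (z j)) := by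
  have h0 : ∀ i j l, D (algebraMap ℂ ℂ (T i j l)) = 0 := fun i j l =>
    D.map_algebraMap (⟨T i j l, hTk i j l⟩ : k)
  unfold Bf
  simp only [map_sum, Derivation.leibniz, smul_eq_mul, h0, mul_zero, add_zero,
    ← Finset.sum_add_distrib]
  refine Finset.sum_congr rfl fun i _ => Finset.sum_congr rfl fun j _ =>
    Finset.sum_congr rfl fun l _ => ?_
  ring

/-- derivatives of the vectors of a plane in a smooth cubic fourfold stay in the plane -/
theorem der_mem (k : Subfield ℂ) (hT : SymT T) (hs : SmoothT T) (hTk : ∀ i j l, T i j l ∈ k)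
    {w : Fin 3 → Fin 6 → ℂ} (hw : LinearIndependent ℂ w)
    (h : ∀ i j l, Bf T (w i) (w j) (w l) = 0) (D : Derivation k ℂ ℂ) (l : Fin 3) :
    (fun j => D (w l j)) ∈ Submodule.span ℂ (Set.range w) := by
  set W := Submodule.span ℂ (Set.range w) with hW
  obtain ⟨W', hWW⟩ := Submodule.exists_isCompl W
  have hf1 : Module.finrank ℂ W = 3 := by
    rw [hW, finrank_span_eq_card hw]; simp
  have hf2 : Module.finrank ℂ W' = 3 := by
    have := Submodule.finrank_add_eq_of_isCompl hWW
    rw [hf1] at this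
    simp at this
    omega
  let b := Module.finBasisOfFinrankEq ℂ W' hf2
  -- the decomposition
  have hdec : ∀ z : Fin 6 → ℂ, ∃ z1 ∈ W, ∃ a : Fin 3 → ℂ, z = z1 + ∑ m, a m • (b m : Fin 6 → ℂ) := by
    intro z
    have hz : z ∈ W ⊔ W' := by rw [hWW.sup_eq_top]; trivial
    obtain ⟨z1, hz1, z2, hz2, rfl⟩ := Submodule.mem_sup.1 hz
    refine ⟨z1, hz1, b.repr ⟨z2, hz2⟩, ?_⟩
    have := congrArg (Subtype.val) (b.sum_repr ⟨z2, hz2⟩)
    rw [AddSubmonoidClass.coe_finsetSum] at this
    congr 1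
    exact this.symm
  choose z1 hz1 a ha using fun l : Fin 3 => hdec (fun j => D (w l j))
  let P : Fin 6 → MvPolynomial (Fin 3) ℂ := fun j => ∑ i, X i * C (w i j)
  let Q : Fin 3 → MvPolynomial (Fin 3) ℂ := fun m =>
    Bf T (fun j => C ((b m : Fin 6 → ℂ) j)) P P
  let p : (Fin 3 → ℂ) → Fin 6 → ℂ := fun c => ∑ i, c i • w i
  have hpW : ∀ c, p c ∈ W := fun c => Submodule.sum_mem _ fun i _ =>
    Submodule.smul_mem _ _ (Submodule.subset_span ⟨i, rfl⟩)
  have hPe : ∀ c j, eval c (P j) = p c j := by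
    intro c j
    simp [P, p]
  have hQe : ∀ c m, eval c (Q m) = Bf T (b m : Fin 6 → ℂ) (p c) (p c) := by
    intro c m
    simp only [Q, Bf, map_sum, map_mul, hPe, eval_C]
    simp [algebraMap_eq]
  have hPh : ∀ j, (P j).IsHomogeneous 1 := by
    intro j
    refine IsHomogeneous.sum _ _ _ fun i _ => ?_
    exact (isHomogeneous_X ℂ i).mul (isHomogeneous_C _ _)
  have hQh : ∀ m, (Q m).IsHomogeneous 2 := by
    intro m
    refine IsHomogeneous.sum _ _ _ fun i _ => IsHomogeneous.sum _ _ _ fun j _ =>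
      IsHomogeneous.sum _ _ _ fun l _ => ?_
    exact (((isHomogeneous_C _ _).mul (isHomogeneous_C _ _)).mul (hPh j)).mul (hPh l)
  have hzero : ∀ c, (∀ m, eval c (Q m) = 0) → c = 0 := by
    intro c hc
    have h1 : ∀ x : Fin 6 → ℂ, Bf T x (p c) (p c) = 0 := by
      intro x
      obtain ⟨x1, hx1, e, rfl⟩ := hdec x
      rw [← lin_apply, map_add, map_sum]
      rw [lin_apply, zero_of_mem hT h hx1 (hpW c) (hpW c), zero_add]
      refine Finset.sum_eq_zero fun m _ => ?_
      rw [map_smul, lin_apply, ← hQe, hc m, smul_zero]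
    have h2 : p c = 0 := by
      apply hs
      intro i
      rw [← single_form]
      exact h1 _
    have h3 := Fintype.linearIndependent_iff.1 hw c h2
    funext i
    exact h3 i
  -- the syzygy
  have hE : ∀ i j l, Bf T (fun j => D (w i j)) (w j) (w l) + Bf T (w i) (fun m => D (w j m)) (w l) +
      Bf T (w i) (w j) (fun j => D (w l j)) = 0 := by
    intro i j l
    rw [← der_Bf k hTk, h, map_zero]
  have hd : ∀ c : Fin 3 → ℂ, Bf T (∑ l, c l • (fun j => D (w l j))) (p c) (p c) = 0 := by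
    intro c
    set d : Fin 6 → ℂ := ∑ l, c l • (fun j => D (w l j)) with hd
    have e1 : ∀ x y : Fin 6 → ℂ, Bf T (p c) x y = ∑ i, c i * Bf T (w i) x y := by
      intro x y
      rw [← lin_apply, map_sum]
      simp only [map_smul, lin_apply, smul_eq_mul]
    have e2 : ∀ x y : Fin 6 → ℂ, Bf T x (p c) y = ∑ i, c i * Bf T x (w i) y := by
      intro x y
      rw [sw12 hT, e1]
      exact Finset.sum_congr rfl fun i _ => by rw [sw12 hT]
    have e3 : ∀ x y : Fin 6 → ℂ, Bf T x y (p c) = ∑ i, c i * Bf T x y (w i) := by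
      intro x y
      rw [sw13 hT, e1]
      exact Finset.sum_congr rfl fun i _ => by rw [sw13 hT]
    have f1 : ∀ x y : Fin 6 → ℂ, Bf T d x y = ∑ i, c i * Bf T (fun j => D (w i j)) x y := by
      intro x y
      rw [← lin_apply, map_sum]
      simp only [map_smul, lin_apply, smul_eq_mul]
    have f2 : ∀ x y : Fin 6 → ℂ, Bf T x d y = ∑ i, c i * Bf T x (fun j => D (w i j)) y := by
      intro x y
      rw [sw12 hT, f1]
      exact Finset.sum_congr rfl fun i _ => by rw [sw12 hT]
    have f3 : ∀ x y : Fin 6 → ℂ, Bf T x y d = ∑ i, c i * Bf T x y (fun j => D (w i j)) := by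
      intro x y
      rw [sw13 hT, f1]
      exact Finset.sum_congr rfl fun i _ => by rw [sw13 hT]
    have g1 : Bf T d (p c) (p c) = ∑ i, ∑ j, ∑ l, c i * c j * c l *
        Bf T (fun j => D (w i j)) (w j) (w l) := by
      rw [f1]
      refine Finset.sum_congr rfl fun i _ => ?_
      rw [e2, Finset.mul_sum]
      refine Finset.sum_congr rfl fun j _ => ?_
      rw [e3, Finset.mul_sum, Finset.mul_sum]
      refine Finset.sum_congr rfl fun l _ => ?_
      ring
    have g2 : Bf T (p c) d (p c) = ∑ i, ∑ j, ∑ l, c i * c j * c l *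
        Bf T (w i) (fun m => D (w j m)) (w l) := by
      rw [e1]
      refine Finset.sum_congr rfl fun i _ => ?_
      rw [f2, Finset.mul_sum]
      refine Finset.sum_congr rfl fun j _ => ?_
      rw [e3, Finset.mul_sum, Finset.mul_sum]
      refine Finset.sum_congr rfl fun l _ => ?_
      ring
    have g3 : Bf T (p c) (p c) d = ∑ i, ∑ j, ∑ l, c i * c j * c l *
        Bf T (w i) (w j) (fun j => D (w l j)) := by
      rw [e1]
      refine Finset.sum_congr rfl fun i _ => ?_
      rw [e2, Finset.mul_sum]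
      refine Finset.sum_congr rfl fun j _ => ?_
      rw [f3, Finset.mul_sum, Finset.mul_sum]
      refine Finset.sum_congr rfl fun l _ => ?_
      ring
    have g4 : Bf T d (p c) (p c) + Bf T (p c) d (p c) + Bf T (p c) (p c) d = 0 := by
      rw [g1, g2, g3, ← Finset.sum_add_distrib, ← Finset.sum_add_distrib]
      refine Finset.sum_eq_zero fun i _ => ?_
      rw [← Finset.sum_add_distrib, ← Finset.sum_add_distrib]
      refine Finset.sum_eq_zero fun j _ => ?_
      rw [← Finset.sum_add_distrib, ← Finset.sum_add_distrib]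
      refine Finset.sum_eq_zero fun l _ => ?_
      linear_combination (c i * c j * c l) * hE i j l
    rw [sw12 hT (p c) d, sw13 hT (p c) (p c) d] at g4
    linear_combination (1 / 3 : ℂ) * g4
  have hsyz : ∑ m, (∑ l, X l * C (a l m)) * Q m = 0 := by
    apply MvPolynomial.funext
    intro c
    rw [map_sum, map_zero]
    simp only [map_mul, map_sum, eval_X, eval_C, hQe]
    have h1 : Bf T (∑ l, c l • ∑ m, a l m • (b m : Fin 6 → ℂ)) (p c) (p c) = 0 := by
      have h2 : (∑ l, c l • ∑ m, a l m • (b m : Fin 6 → ℂ)) =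
          (∑ l, c l • (fun j => D (w l j))) - ∑ l, c l • z1 l := by
        rw [← Finset.sum_sub_distrib]
        refine Finset.sum_congr rfl fun l _ => ?_
        rw [ha l, ← smul_sub, add_sub_cancel_left]
      rw [h2, ← lin_apply, map_sub, lin_apply, lin_apply, hd c, zero_of_mem hT h
        (Submodule.sum_mem _ fun i _ => Submodule.smul_mem _ _ (hz1 i)) (hpW c) (hpW c), sub_zero]
    rw [← lin_apply, map_sum] at h1
    simp only [map_smul, map_sum, lin_apply, smul_eq_mul] at h1
    rw [← h1]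
    simp only [Finset.mul_sum, Finset.sum_mul]
    rw [Finset.sum_comm]
    refine Finset.sum_congr rfl fun i _ => Finset.sum_congr rfl fun j _ => ?_
    ring
  have hLh : ∀ m, (∑ l, X l * C (a l m) : MvPolynomial (Fin 3) ℂ).IsHomogeneous 1 := by
    intro m
    refine IsHomogeneous.sum _ _ _ fun i _ => ?_
    exact (isHomogeneous_X ℂ i).mul (isHomogeneous_C _ _)
  have hL0 := syz Q hQh hzero (fun m => ∑ l, X l * C (a l m)) hLh hsyz
  have ha0 : ∀ l m, a l m = 0 := by
    intro l m
    have h1 := congrArg (eval (Pi.single l (1 : ℂ))) (hL0 m)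
    simpa [Pi.single_apply] using h1
  rw [ha l]
  simp only [ha0, zero_smul, Finset.sum_const_zero, add_zero]
  exact hz1 l

end

end Pool.Agent.X288.NC
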