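import Mathlib
import Pool.Agent.H641.PCF.P_countable_subfield
import Pool.Agent.TH214.RM.Irr
import Pool.Agent.H92Rev.Null
import Pool.Agent.Y201.C3.Coord
import Pool.Agent.X288.NC.Rig

/-! # Part AVOID, preparations -/

set_option autoImplicit false

namespace Pool.Agent.X288.NC

open MvPolynomial Pool.Agent.Y201.C3 Pool.Agent.Y201.LI

noncomputable section

variable {T : Fin 6 → Fin 6 → Fin 6 → ℂ}

theorem closed_of (k : Subfield ℂ) (h : ∀ z : ℂ, IsIntegral k z → z ∈ k) : IsAlgClosed k := by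
  apply IsAlgClosed.of_exists_root
  intro p hm hirr
  obtain ⟨z, hz⟩ := IsAlgClosed.exists_aeval_eq_zero ℂ p (by
    have := hirr.degree_pos
    exact this.ne')
  have hint : IsIntegral k z := ⟨p, hm, hz⟩
  refine ⟨⟨z, h z hint⟩, ?_⟩
  apply (algebraMap k ℂ).injective
  rw [map_zero, ← hz, ← Polynomial.aeval_algebraMap_apply_eq_algebraMap_eval]
  rfl

/-- the planes of a smooth cubic fourfold form a countable set -/
theorem planes (hR : S_RIG) (hT : SymT T) (hs : SmoothT T) :
    ∃ S : Set (Fin 3 → Fin 6 → ℂ), S.Countable ∧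
      (∀ v ∈ S, LinearIndependent ℂ v ∧ ∀ i j l, Bf T (v i) (v j) (v l) = 0) ∧
      ∀ v : Fin 3 → Fin 6 → ℂ, LinearIndependent ℂ v → (∀ i j l, Bf T (v i) (v j) (v l) = 0) →
        ∃ v' ∈ S, Submodule.span ℂ (Set.range v') = Submodule.span ℂ (Set.range v) := by
  obtain ⟨k, hk, hTk, hint⟩ := PCFib.countable_subfield
    (Set.range fun x : Fin 6 × Fin 6 × Fin 6 => T x.1 x.2.1 x.2.2) (Set.countable_range _)
  have hcl := closed_of k hint
  refine ⟨{v | (∀ i j, v i j ∈ k) ∧ LinearIndependent ℂ v ∧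
    ∀ i j l, Bf T (v i) (v j) (v l) = 0}, ?_, fun v hv => hv.2, ?_⟩
  · have : Countable k := hk.to_subtype
    have h1 : (Set.range fun (u : Fin 3 → Fin 6 → k) (i : Fin 3) (j : Fin 6) =>
        ((u i j : k) : ℂ)).Countable := Set.countable_range _
    refine h1.mono ?_
    rintro v ⟨hv, -⟩
    exact ⟨fun i j => ⟨v i j, hv i j⟩, rfl⟩
  · intro v hv hB
    obtain ⟨v', h1, h2, h3⟩ := hR k hcl T hT hs (fun i j l => hTk ⟨(i, j, l), rfl⟩) v hv hB
    refine ⟨v', ⟨h1, h2, fun i j l => ?_⟩, h3⟩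
    have hm : ∀ i, v' i ∈ Submodule.span ℂ (Set.range v) := fun i => by
      rw [← h3]
      exact Submodule.subset_span ⟨i, rfl⟩
    exact zero_of_mem hT hB (hm i) (hm j) (hm l)

theorem frm_hom (T : Fin 6 → Fin 6 → Fin 6 → ℂ) : (frm T).IsHomogeneous 3 := by
  refine IsHomogeneous.sum _ _ _ fun i _ => IsHomogeneous.sum _ _ _ fun j _ =>
    IsHomogeneous.sum _ _ _ fun l _ => ?_
  exact (((isHomogeneous_C _ _).mul (isHomogeneous_X _ _)).mul (isHomogeneous_X _ _)).mul
    (isHomogeneous_X _ _)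

theorem frm_irr (hT : SymT T) (hs : SmoothT T) : Irreducible (frm T) := by
  refine Pool.Agent.TH214.RM.irreducible_of_smooth (n := 4) (by norm_num) (frm T) 3 (by norm_num)
    (frm_hom T) fun i => ?_
  rw [← vanishingIdeal_zeroLocus_eq_radical (K := ℂ), mem_vanishingIdeal_iff]
  intro z hz
  rw [aeval_X]
  have h1 : z = 0 := by
    apply hs
    intro l
    rw [smooth_iff]
    have h2 : aeval z (pderiv l (frm T)) = 0 :=
      hz _ (Ideal.subset_span ⟨l, rfl⟩)
    have h3 := pderiv_frmG hT l z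
    change aeval z (pderiv l (frm T)) = _ at h3
    rw [h2] at h3
    have h4 := mul_eq_zero.1 h3.symm
    rcases h4 with h4 | h4
    · norm_num at h4
    · exact h4
  rw [h1]
  rfl

theorem exists_on_hyp {n : ℕ} (F : MvPolynomial (Fin n) ℂ) (hF : Irreducible F)
    (S : Set (MvPolynomial (Fin n) ℂ)) (hS : S.Countable) (h : ∀ g ∈ S, ¬ F ∣ g) :
    ∃ p : Fin n → ℂ, eval p F = 0 ∧ ∀ g ∈ S, eval p g ≠ 0 := by
  have : Countable S := hS.to_subtype
  let P : Ideal (MvPolynomial (Fin n) ℂ) := Ideal.span {F}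
  have hP : P.IsPrime := (Ideal.span_singleton_prime hF.ne_zero).2 hF.prime
  let Q := MvPolynomial (Fin n) ℂ ⧸ P
  let K := FractionRing Q
  let π : MvPolynomial (Fin n) ℂ →ₐ[ℂ] K :=
    (Algebra.ofId Q K |>.restrictScalars ℂ).comp (Ideal.Quotient.mkₐ ℂ P)
  have hπ : ∀ g, π g = 0 ↔ F ∣ g := by
    intro g
    rw [← Ideal.mem_span_singleton]
    change algebraMap Q K (Ideal.Quotient.mk P g) = 0 ↔ _
    rw [map_eq_zero_iff _ (IsFractionRing.injective Q K), Ideal.Quotient.eq_zero_iff_mem]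
  let ψ : MvPolynomial (Fin n ⊕ S) ℂ →ₐ[ℂ] K :=
    aeval (Sum.elim (fun i => π (X i)) (fun g => (π g.1)⁻¹))
  have hψ : ∀ g, ψ (rename Sum.inl g) = π g := by
    intro g
    simp only [ψ]
    rw [aeval_rename]
    have : (aeval (Sum.elim (fun i => π (X i)) (fun g : S => (π g.1)⁻¹) ∘ Sum.inl) :
        MvPolynomial (Fin n) ℂ →ₐ[ℂ] K) = π := by
      apply MvPolynomial.algHom_ext
      intro i
      rw [aeval_X]
      rfl
    rw [this]
  let I : Ideal (MvPolynomial (Fin n ⊕ S) ℂ) := Ideal.span ({rename Sum.inl F} ∪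
    Set.range fun g : S => X (Sum.inr g) * rename Sum.inl g.1 - 1)
  have hI : I ≤ RingHom.ker ψ := by
    rw [Ideal.span_le]
    rintro _ (h1 | ⟨g, rfl⟩)
    · rw [Set.mem_singleton_iff.1 h1]
      change ψ _ = 0
      rw [hψ, hπ]
    · change ψ _ = 0
      rw [map_sub, map_mul, map_one, hψ]
      have h1 : ψ (X (Sum.inr g)) = (π g.1)⁻¹ := by
        simp only [ψ, aeval_X, Sum.elim_inr]
      rw [h1, inv_mul_cancel₀, sub_self]
      rw [Ne, hπ]
      exact h g.1 g.2
  have hI1 : I ≠ ⊤ := by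
    intro h1
    have h2 : (1 : MvPolynomial (Fin n ⊕ S) ℂ) ∈ I := by rw [h1]; trivial
    have h3 := hI h2
    rw [RingHom.mem_ker, map_one] at h3
    exact one_ne_zero h3
  obtain ⟨φ, hφ⟩ := Pool.Agent.H92Rev.exists_point I hI1
  have he : ∀ g, φ (rename Sum.inl g) = eval (fun i => φ (X (Sum.inl i))) g := by
    intro g
    have : (φ.comp (rename Sum.inl) : MvPolynomial (Fin n) ℂ →ₐ[ℂ] ℂ) =
        aeval (fun i => φ (X (Sum.inl i))) := by
      apply MvPolynomial.algHom_ext
      intro i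
      simp
    have h1 := congrArg (fun f => f g) this
    simp only [AlgHom.comp_apply] at h1
    rw [h1, ← coe_aeval_eq_eval]
    rfl
  refine ⟨fun i => φ (X (Sum.inl i)), ?_, fun g hg h0 => ?_⟩
  · rw [← he]
    exact hφ _ (Ideal.subset_span (Or.inl rfl))
  · have h1 := hφ _ (Ideal.subset_span (Or.inr ⟨⟨g, hg⟩, rfl⟩))
    rw [map_sub, map_mul, map_one, he, h0, mul_zero, zero_sub, neg_eq_zero] at h1
    exact one_ne_zero h1

/-- a hyperplane avoiding countably many nonzero vectors -/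
theorem exists_form (Y : Set (Fin 6 → ℂ)) (hY : Y.Countable) (h0 : ∀ y ∈ Y, y ≠ 0) :
    ∃ m : Fin 6 → ℂ, ∀ y ∈ Y, ∑ i, m i * y i ≠ 0 := by
  let g : (Fin 6 → ℂ) → MvPolynomial (Fin 6) ℂ := fun y => ∑ i, X i * C (y i)
  have hd : Dense (⋂ y ∈ Y, {P : Fin 6 → ℂ | eval P (g y) ≠ 0}) := by
    apply dense_biInter_of_isOpen
    · intro y _
      exact isOpen_ne_fun (MvPolynomial.continuous_eval (g y)) continuous_const
    · exact hY
    · intro y hy
      rw [dense_iff_inter_open]
      intro W hW ⟨w, hw⟩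
      by_contra hcon
      have hzero : ∀ x ∈ W, eval x (g y) = 0 := by
        intro x hx
        by_contra h
        exact hcon ⟨x, hx, h⟩
      obtain ⟨ε, hε, hball⟩ := Metric.isOpen_iff.1 hW w hw
      have h1 : g y = 0 := by
        apply MvPolynomial.funext_set (fun i => Metric.ball (w i) ε)
        · intro i
          exact infinite_of_mem_nhds (w i) (Metric.ball_mem_nhds _ hε)
        · intro x hx
          rw [map_zero]
          apply hzero
          apply hball
          rw [Metric.mem_ball, dist_pi_lt_iff hε]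
          intro i
          exact hx i (Set.mem_univ _)
      apply h0 y hy
      funext i
      have h2 := congrArg (eval (Pi.single i (1 : ℂ))) h1
      simpa [g, Pi.single_apply] using h2
  obtain ⟨m, hm⟩ := hd.nonempty
  rw [Set.mem_iInter₂] at hm
  refine ⟨m, fun y hy => ?_⟩
  have := hm y hy
  simpa [g] using this

end

end Pool.Agent.X288.NC
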