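import Mathlib
import Pool.Agent.X288.NC.AvA

/-! # Part AVOID, the finitely many bad lines for one plane; nondivisibility -/

set_option autoImplicit false

namespace Pool.Agent.X288.NC

open MvPolynomial Pool.Agent.Y201.C3 Pool.Agent.Y201.LI

noncomputable section

variable {T : Fin 6 → Fin 6 → Fin 6 → ℂ}

theorem lin_add (x x' y z : Fin 6 → ℂ) : Bf T (x + x') y z = Bf T x y z + Bf T x' y z :=
  Bg_add1 T x x' y z

theorem lin_smul (c : ℂ) (x y z : Fin 6 → ℂ) : Bf T (c • x) y z = c * Bf T x y z :=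
  Bg_smul1 T c x y z

theorem lin_add2 (x y y' z : Fin 6 → ℂ) : Bf T x (y + y') z = Bf T x y z + Bf T x y' z :=
  Bg_add2 T x y y' z

theorem lin_smul2 (c : ℂ) (x y z : Fin 6 → ℂ) : Bf T x (c • y) z = c * Bf T x y z :=
  Bg_smul2 T c x y z

theorem lin_add3 (x y z z' : Fin 6 → ℂ) : Bf T x y (z + z') = Bf T x y z + Bf T x y z' :=
  Bg_add3 T x y z z'

theorem lin_smul3 (c : ℂ) (x y z : Fin 6 → ℂ) : Bf T x y (c • z) = c * Bf T x y z :=
  Bg_smul3 T c x y z

theorem finite_roots (α β γ : ℂ) (h : ¬ (α = 0 ∧ β = 0 ∧ γ = 0)) :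
    {z : ℂ | α * z ^ 2 + β * z + γ = 0}.Finite := by
  let P : Polynomial ℂ := Polynomial.C α * Polynomial.X ^ 2 + Polynomial.C β * Polynomial.X +
    Polynomial.C γ
  have hP : P ≠ 0 := by
    intro h0
    apply h
    refine ⟨?_, ?_, ?_⟩
    · have := congrArg (fun q => Polynomial.coeff q 2) h0
      simpa [P, Polynomial.coeff_X, Polynomial.coeff_C] using this
    · have := congrArg (fun q => Polynomial.coeff q 1) h0
      simpa [P, Polynomial.coeff_X, Polynomial.coeff_C] using this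
    · have := congrArg (fun q => Polynomial.coeff q 0) h0
      simpa [P, Polynomial.coeff_X, Polynomial.coeff_C] using this
  refine (P.rootSet_finite ℂ).subset ?_
  intro z hz
  rw [Polynomial.mem_rootSet]
  refine ⟨hP, ?_⟩
  simp only [P, map_add, map_mul, map_pow, Polynomial.aeval_X, Polynomial.aeval_C]
  exact hz

theorem bad (hT : SymT T) {p : Fin 6 → ℂ} (hp0 : p 0 ≠ 0) (hpp : Bf T p p p = 0)
    {v : Fin 3 → Fin 6 → ℂ}
    (hdet : (Matrix.of fun i j : Fin 3 => Bf T p (v i) (v j)).det ≠ 0)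
    (hL : Bf T p p (v 0) ≠ 0) :
    ∃ Y : Set (Fin 6 → ℂ), Y.Finite ∧ ∀ x' ∈ Submodule.span ℂ (Set.range v), ∀ t : ℂ,
      ∀ x : Fin 6 → ℂ, x = x' + t • p → x 0 = 0 → x ≠ 0 → Bf T p p x = 0 → Bf T p x x = 0 →
        ∃ y ∈ Y, ∃ c : ℂ, x = c • y := by
  set l1 := Bf T p p (v 1) / Bf T p p (v 0) with hl1
  set l2 := Bf T p p (v 2) / Bf T p p (v 0) with hl2
  let M : Fin 3 → Fin 3 → ℂ := fun i j => Bf T p (v i) (v j)
  have hMs : ∀ i j, M i j = M j i := fun i j => sw23 hT _ _ _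
  let α : ℂ := M 1 1 - 2 * l1 * M 0 1 + l1 ^ 2 * M 0 0
  let γ : ℂ := M 2 2 - 2 * l2 * M 0 2 + l2 ^ 2 * M 0 0
  let β : ℂ := 2 * (M 1 2 - l1 * M 0 2 - l2 * M 0 1 + l1 * l2 * M 0 0)
  have hne : ¬ (α = 0 ∧ β = 0 ∧ γ = 0) := by
    rintro ⟨h1, h2, h3⟩
    apply hdet
    rw [Matrix.det_fin_three]
    simp only [Matrix.of_apply]
    change M 0 0 * M 1 1 * M 2 2 - M 0 0 * M 1 2 * M 2 1 - M 0 1 * M 1 0 * M 2 2 +
      M 0 1 * M 1 2 * M 2 0 + M 0 2 * M 1 0 * M 2 1 - M 0 2 * M 1 1 * M 2 0 = 0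
    rw [hMs 1 0, hMs 2 0, hMs 2 1]
    have e1 : M 1 1 = 2 * l1 * M 0 1 - l1 ^ 2 * M 0 0 := by
      linear_combination h1
    have e2 : M 2 2 = 2 * l2 * M 0 2 - l2 ^ 2 * M 0 0 := by
      linear_combination h3
    have e3 : M 1 2 = l1 * M 0 2 + l2 * M 0 1 - l1 * l2 * M 0 0 := by
      linear_combination (1 / 2 : ℂ) * h2
    rw [e1, e2, e3]
    ring
  let pr : ℂ → ℂ → Fin 6 → ℂ := fun s t => (-l1 * s - l2 * t) • v 0 + s • v 1 + t • v 2
  let vec : ℂ → ℂ → Fin 6 → ℂ := fun s t => pr s t + (-(pr s t 0) / p 0) • p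
  have hvec : ∀ c s t, vec (c * s) (c * t) = c • vec s t := by
    intro c s t
    funext i
    simp only [vec, pr, Pi.add_apply, Pi.smul_apply, smul_eq_mul]
    field_simp
  refine ⟨{vec 1 0} ∪ (fun z => vec z 1) '' {z | α * z ^ 2 + β * z + γ = 0},
    (Set.finite_singleton _).union ((finite_roots α β γ hne).image _), ?_⟩
  intro x' hx' t x hx hx0 hxne h1 h2
  obtain ⟨c, hc⟩ := (Submodule.mem_span_range_iff_exists_fun ℂ).1 hx'
  rw [Fin.sum_univ_three] at hc
  have g1 : Bf T p p x = c 0 * Bf T p p (v 0) + c 1 * Bf T p p (v 1) + c 2 * Bf T p p (v 2) := by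
    rw [hx, ← hc]
    simp only [lin_add3, lin_smul3, hpp]
    ring
  have hc0 : c 0 = -l1 * c 1 - l2 * c 2 := by
    rw [h1] at g1
    rw [hl1, hl2]
    field_simp
    linear_combination -g1
  have hpr : x' = pr (c 1) (c 2) := by
    rw [← hc, hc0]
  have hpx' : Bf T p p x' = 0 := by
    rw [← h1, hx, lin_add3, lin_smul3, hpp]
    ring
  have g2 : Bf T p x x = α * c 1 ^ 2 + β * (c 1 * c 2) + γ * c 2 ^ 2 := by
    have g3 : Bf T p x x = Bf T p x' x' := by
      rw [hx]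
      simp only [lin_add3, lin_smul3, lin_add2, lin_smul2, hpp]
      rw [sw23 hT p x' p, hpx']
      ring
    rw [g3, hpr]
    simp only [pr, lin_add3, lin_smul3, lin_add2, lin_smul2]
    change (-l1 * c 1 - l2 * c 2) * ((-l1 * c 1 - l2 * c 2) * M 0 0 + c 1 * M 1 0 + c 2 * M 2 0) +
      c 1 * ((-l1 * c 1 - l2 * c 2) * M 0 1 + c 1 * M 1 1 + c 2 * M 2 1) +
      c 2 * ((-l1 * c 1 - l2 * c 2) * M 0 2 + c 1 * M 1 2 + c 2 * M 2 2) = _
    rw [hMs 1 0, hMs 2 0, hMs 2 1]
    simp only [α, β, γ]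
    ring
  rw [h2] at g2
  have hxv : x = vec (c 1) (c 2) := by
    have h3 : x' 0 + t * p 0 = 0 := by
      have := congrFun hx 0
      rw [hx0] at this
      simpa using this.symm
    have h4 : t = -(pr (c 1) (c 2) 0) / p 0 := by
      rw [← hpr]
      field_simp
      linear_combination h3
    rw [hx]
    simp only [vec]
    rw [← h4, ← hpr]
  by_cases h3 : c 2 = 0
  · refine ⟨vec 1 0, Or.inl rfl, c 1, ?_⟩
    rw [← hvec, hxv, h3]
    simp
  · refine ⟨vec (c 1 / c 2) 1, Or.inr ⟨c 1 / c 2, ?_, rfl⟩, c 2, ?_⟩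
    · change α * (c 1 / c 2) ^ 2 + β * (c 1 / c 2) + γ = 0
      field_simp
      linear_combination -g2
    · rw [← hvec, hxv]
      congr 1
      · field_simp
      · ring

/-- the determinant of the net of quadrics of a plane -/
def detP (T : Fin 6 → Fin 6 → Fin 6 → ℂ) (v : Fin 3 → Fin 6 → ℂ) : MvPolynomial (Fin 6) ℂ :=
  (Matrix.of fun i j : Fin 3 => Bf T X (fun a => C (v i a)) (fun a => C (v j a))).det

theorem map_detP {R : Type} [CommRing R] [Algebra ℂ R] (φ : MvPolynomial (Fin 6) ℂ →ₐ[ℂ] R)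
    (v : Fin 3 → Fin 6 → ℂ) : φ (detP T v) =
      (Matrix.of fun i j : Fin 3 => Bf T (fun a => φ (X a)) (fun a => algebraMap ℂ R (v i a))
        (fun a => algebraMap ℂ R (v j a))).det := by
  unfold detP
  have := AlgHom.map_det φ (Matrix.of fun i j : Fin 3 =>
    Bf T (X : Fin 6 → MvPolynomial (Fin 6) ℂ) (fun a => C (v i a)) (fun a => C (v j a)))
  rw [this]
  congr 1
  ext i j
  rw [AlgHom.mapMatrix_apply, Matrix.map_apply, Matrix.of_apply, Matrix.of_apply, Bf_eq, map_Bg]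
  have h : ∀ c : ℂ, φ (C c) = algebraMap ℂ R c := fun c => φ.commutes c
  simp only [h]
  rfl

theorem eval_detP (x : Fin 6 → ℂ) (v : Fin 3 → Fin 6 → ℂ) : eval x (detP T v) =
    (Matrix.of fun i j : Fin 3 => Bf T x (v i) (v j)).det := by
  have h : eval x (detP T v) = aeval x (detP T v) := by
    rw [← coe_aeval_eq_eval]
    rfl
  rw [h, map_detP]
  simp only [aeval_X]
  rfl

theorem not_dvd_detP (hT : SymT T) {v : Fin 3 → Fin 6 → ℂ}
    (hB : ∀ i j l, Bf T (v i) (v j) (v l) = 0) {x : Fin 6 → ℂ}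
    (hx : (Matrix.of fun i j : Fin 3 => Bf T x (v i) (v j)).det ≠ 0) : ¬ frm T ∣ detP T v := by
  intro hdvd
  -- restriction to the lines `x + t w`
  have key : ∀ w ∈ Submodule.span ℂ (Set.range v), Bf T x w w = 0 := by
    intro w hw
    let φ : MvPolynomial (Fin 6) ℂ →ₐ[ℂ] Polynomial ℂ :=
      aeval (fun a => algebraMap ℂ (Polynomial ℂ) (x a) + Polynomial.X *
        algebraMap ℂ (Polynomial ℂ) (w a))
    have hφX : ∀ a, φ (X a) = algebraMap ℂ (Polynomial ℂ) (x a) + Polynomial.X *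
        algebraMap ℂ (Polynomial ℂ) (w a) := fun a => aeval_X _ a
    have h1 : φ (detP T v) = algebraMap ℂ (Polynomial ℂ)
        ((Matrix.of fun i j : Fin 3 => Bf T x (v i) (v j)).det) := by
      rw [map_detP, RingHom.map_det]
      congr 1
      ext i j : 1
      rw [RingHom.mapMatrix_apply, Matrix.map_apply, Matrix.of_apply, Matrix.of_apply]
      simp only [hφX]
      rw [Bf_eq, Bg_add1, Bg_smul1, Bg_alg, Bg_alg]
      have h2 : Bg T w (v i) (v j) = 0 := zero_of_mem hT hB hw (Submodule.subset_span ⟨i, rfl⟩)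
        (Submodule.subset_span ⟨j, rfl⟩)
      rw [h2, map_zero, mul_zero, add_zero]
      rfl
    have h2 : IsUnit (φ (frm T)) := by
      have h3 := map_dvd φ hdvd
      refine isUnit_of_dvd_unit h3 ?_
      rw [h1]
      exact (Ne.isUnit hx).map _
    have h3 := Polynomial.natDegree_eq_zero_of_isUnit h2
    have h4 : φ (frm T) = algebraMap ℂ (Polynomial ℂ) (Bf T x x x) + Polynomial.X *
        algebraMap ℂ (Polynomial ℂ) (3 * Bf T x x w) + Polynomial.X ^ 2 *
        algebraMap ℂ (Polynomial ℂ) (3 * Bf T x w w) := by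
      have h5 : φ (frm T) = Bf T (fun a => φ (X a)) (fun a => φ (X a)) (fun a => φ (X a)) := by
        unfold frm
        rw [Bf_eq, map_Bg]
        rfl
      rw [h5]
      simp only [hφX, Bf_eq]
      simp only [Bg_add1, Bg_add2, Bg_add3, Bg_smul1, Bg_smul2, Bg_smul3, Bg_alg]
      have e1 : Bg T w w w = 0 := zero_of_mem hT hB hw hw hw
      have e2 : Bg T x w x = Bg T x x w := sw23 hT _ _ _
      have e3 : Bg T w x x = Bg T x x w := sw13 hT _ _ _
      have e4 : Bg T w x w = Bg T x w w := sw12 hT _ _ _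
      have e5 : Bg T w w x = Bg T x w w := sw13 hT _ _ _
      rw [e1, e2, e3, e4, e5]
      simp only [map_mul, map_zero]
      have : algebraMap ℂ (Polynomial ℂ) 3 = 3 := map_ofNat _ 3
      rw [this]
      ring
    have h5 : (φ (frm T)).coeff 2 = 0 := Polynomial.coeff_eq_zero_of_natDegree_lt (by omega)
    rw [h4] at h5
    simp only [Polynomial.algebraMap_eq, Polynomial.coeff_add, Polynomial.coeff_C,
      Polynomial.coeff_X_mul, Polynomial.coeff_mul_C, Polynomial.coeff_X_pow,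
      Polynomial.coeff_X] at h5
    norm_num at h5
    exact h5
  apply hx
  have h0 : ∀ i j, Bf T x (v i) (v j) = 0 := by
    intro i j
    have hi : v i ∈ Submodule.span ℂ (Set.range v) := Submodule.subset_span ⟨i, rfl⟩
    have hj : v j ∈ Submodule.span ℂ (Set.range v) := Submodule.subset_span ⟨j, rfl⟩
    have h1 := key _ (Submodule.add_mem _ hi hj)
    simp only [lin_add3, lin_add2] at h1
    rw [key _ hi, key _ hj, sw23 hT x (v j) (v i)] at h1
    linear_combination (1 / 2 : ℂ) * h1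
  have h1 : (Matrix.of fun i j : Fin 3 => Bf T x (v i) (v j)) = 0 := by
    ext i j
    exact h0 i j
  rw [h1]
  simp

/-- the quadric `B (X, X, w)` -/
def quaP (T : Fin 6 → Fin 6 → Fin 6 → ℂ) (w : Fin 6 → ℂ) : MvPolynomial (Fin 6) ℂ :=
  Bf T X X (fun a => C (w a))

theorem eval_quaP (x w : Fin 6 → ℂ) : eval x (quaP T w) = Bf T x x w := by
  unfold quaP
  simp only [Bf, map_sum, map_mul, eval_C, eval_X]
  simp [algebraMap_eq]

theorem quaP_ne (hT : SymT T) (hs : SmoothT T) {w : Fin 6 → ℂ} (hw : w ≠ 0) : quaP T w ≠ 0 := by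
  intro h
  apply hw
  apply hs
  intro i
  rw [← single_form]
  have h1 : ∀ x : Fin 6 → ℂ, Bf T x x w = 0 := fun x => by
    rw [← eval_quaP, h, map_zero]
  have h2 := h1 (Pi.single i 1 + w)
  simp only [lin_add2, lin_add] at h2
  rw [h1, h1, sw12 hT w (Pi.single i 1) w] at h2
  linear_combination (1 / 2 : ℂ) * h2

theorem not_dvd_quaP (hT : SymT T) (hs : SmoothT T) {w : Fin 6 → ℂ} (hw : w ≠ 0) :
    ¬ frm T ∣ quaP T w := by
  rintro ⟨H, hH⟩
  have h0 := quaP_ne hT hs hw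
  have h1 : frm T ≠ 0 := (frm_irr hT hs).ne_zero
  have h2 : H ≠ 0 := by
    rintro rfl
    rw [mul_zero] at hH
    exact h0 hH
  have h3 : (quaP T w).IsHomogeneous 2 := by
    refine IsHomogeneous.sum _ _ _ fun i _ => IsHomogeneous.sum _ _ _ fun j _ =>
      IsHomogeneous.sum _ _ _ fun l _ => ?_
    exact (((isHomogeneous_C _ _).mul (isHomogeneous_X _ _)).mul (isHomogeneous_X _ _)).mul
      (isHomogeneous_C _ _)
  have h4 := congrArg totalDegree hH
  rw [totalDegree_mul_of_isDomain h1 h2, h3.totalDegree h0, (frm_hom T).totalDegree h1] at h4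
  omega

theorem not_dvd_X (hT : SymT T) (hs : SmoothT T) : ¬ frm T ∣ X 0 := by
  rintro ⟨H, hH⟩
  have h0 : (X 0 : MvPolynomial (Fin 6) ℂ) ≠ 0 := X_ne_zero 0
  have h1 : frm T ≠ 0 := (frm_irr hT hs).ne_zero
  have h2 : H ≠ 0 := by
    rintro rfl
    rw [mul_zero] at hH
    exact h0 hH
  have h4 := congrArg totalDegree hH
  rw [totalDegree_mul_of_isDomain h1 h2, totalDegree_X, (frm_hom T).totalDegree h1] at h4
  omega

end

end Pool.Agent.X288.NC
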