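import Mathlib
import Pool.Agent.H952R2.Sextic.CommonZero
import Pool.Agent.X288.NC.AvB

/-! # Part AVOID: a line in a smooth cubic fourfold which avoids all the planes of the cubic and
meets a given open set -/

set_option autoImplicit false

namespace Pool.Agent.X288.NC.AVOID

open MvPolynomial Pool.Agent.Y201.C3 Pool.Agent.Y201.LI Pool.Agent.X288.NC

noncomputable section

theorem t : S_NET → S_RIG → S_AVOID := by
  intro hN hR T hT hs e W _ hFW
  obtain ⟨S, hSc, hS, hSall⟩ := planes hR hT hs
  -- the point `p`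
  let G : Set (MvPolynomial (Fin 6) ℂ) :=
    {W, X 0} ∪ (detP T '' S ∪ (fun v => quaP T (v 0)) '' S)
  have hG : G.Countable := by
    refine Set.Countable.union ?_ ((hSc.image _).union (hSc.image _))
    exact (Set.toFinite _).countable
  have hGd : ∀ g ∈ G, ¬ frm T ∣ g := by
    rintro g ((rfl | h) | (⟨v, hv, rfl⟩ | ⟨v, hv, rfl⟩))
    · exact hFW
    · rw [Set.mem_singleton_iff.1 h]
      exact not_dvd_X hT hs
    · obtain ⟨x, hx⟩ := hN T hT hs v (hS v hv).1 (hS v hv).2
      exact not_dvd_detP hT (hS v hv).2 hx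
    · exact not_dvd_quaP hT hs ((hS v hv).1.ne_zero 0)
  obtain ⟨p, hpF, hpG⟩ := exists_on_hyp (frm T) (frm_irr hT hs) G hG hGd
  have hpp : Bf T p p p = 0 := by
    have h1 := aeval_frmG T p
    change aeval p (frm T) = Bf T p p p at h1
    rw [← h1, ← hpF, ← coe_aeval_eq_eval]
    rfl
  have hpW : eval p W ≠ 0 := hpG W (Or.inl (Or.inl rfl))
  have hp0 : p 0 ≠ 0 := by
    have := hpG (X 0) (Or.inl (Or.inr rfl))
    rwa [eval_X] at this
  have hdet : ∀ v ∈ S, (Matrix.of fun i j : Fin 3 => Bf T p (v i) (v j)).det ≠ 0 := by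
    intro v hv
    have := hpG (detP T v) (Or.inr (Or.inl ⟨v, hv, rfl⟩))
    rwa [eval_detP] at this
  have hqua : ∀ v ∈ S, Bf T p p (v 0) ≠ 0 := by
    intro v hv
    have := hpG (quaP T (v 0)) (Or.inr (Or.inr ⟨v, hv, rfl⟩))
    rwa [eval_quaP] at this
  -- the bad directions
  choose! Y hYfin hY using fun (v : Fin 3 → Fin 6 → ℂ) (hv : v ∈ S) =>
    bad hT hp0 hpp (hdet v hv) (hqua v hv)
  let Z : Set (Fin 6 → ℂ) := (⋃ v ∈ S, Y v) \ {0}
  have hZ : Z.Countable :=
    (hSc.biUnion fun v hv => (hYfin v hv).countable).mono Set.sdiff_subset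
  obtain ⟨m, hm⟩ := exists_form Z hZ (fun y hy => hy.2)
  -- the second point
  let f : Fin 5 → MvPolynomial (Fin 6) ℂ := ![Bf T (fun a => C (p a)) (fun a => C (p a)) X,
    Bf T (fun a => C (p a)) X X, frm T, X 0, ∑ i, C (m i) * X i]
  have ev1 : ∀ x : Fin 6 → ℂ, eval x (f 0) = Bf T p p x := by
    intro x
    simp only [f, Matrix.cons_val_zero]
    simp only [Bf, map_sum, map_mul, eval_C, eval_X]
    simp [algebraMap_eq]
  have ev2 : ∀ x : Fin 6 → ℂ, eval x (f 1) = Bf T p x x := by
    intro x
    simp only [f, Matrix.cons_val_one, Matrix.cons_val_zero]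
    simp only [Bf, map_sum, map_mul, eval_C, eval_X]
    simp [algebraMap_eq]
  have ev3 : ∀ x : Fin 6 → ℂ, eval x (f 2) = Bf T x x x := by
    intro x
    change eval x (frm T) = _
    unfold frm
    simp only [Bf, map_sum, map_mul, eval_X]
    simp [algebraMap_eq]
  have ev4 : ∀ x : Fin 6 → ℂ, eval x (f 3) = x 0 := by
    intro x
    change eval x (X 0) = _
    rw [eval_X]
  have ev5 : ∀ x : Fin 6 → ℂ, eval x (f 4) = ∑ i, m i * x i := by
    intro x
    change eval x (∑ i, C (m i) * X i) = _
    simp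
  obtain ⟨q, hq0, hq⟩ := Pool.Agent.H952R2.Sextic.exists_common_zero (K := ℂ) (by simp) f (by
    intro k
    fin_cases k
    · change eval 0 (f 0) = 0
      rw [ev1]; simp [Bf]
    · change eval 0 (f 1) = 0
      rw [ev2]; simp [Bf]
    · change eval 0 (f 2) = 0
      rw [ev3]; simp [Bf]
    · change eval 0 (f 3) = 0
      rw [ev4]; simp
    · change eval 0 (f 4) = 0
      rw [ev5]; simp)
  have hq1 : Bf T p p q = 0 := by rw [← ev1]; exact hq 0
  have hq2 : Bf T p q q = 0 := by rw [← ev2]; exact hq 1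
  have hq3 : Bf T q q q = 0 := by rw [← ev3]; exact hq 2
  have hq4 : q 0 = 0 := by rw [← ev4 q]; exact hq 3
  have hq5 : ∑ i, m i * q i = 0 := by rw [← ev5]; exact hq 4
  refine ⟨p, q, ?_, ?_, hpW, ?_⟩
  · rw [LinearIndependent.pair_iff]
    intro a b hab
    have h1 : a = 0 := by
      have := congrFun hab 0
      simp only [Pi.add_apply, Pi.smul_apply, smul_eq_mul, hq4, mul_zero, add_zero,
        Pi.zero_apply] at this
      exact (mul_eq_zero.1 this).resolve_right hp0
    refine ⟨h1, ?_⟩
    rw [h1, zero_smul, zero_add] at hab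
    exact (smul_eq_zero.1 hab).resolve_right hq0
  · have r1 : Bf T p q p = 0 := by rw [sw23 hT, hq1]
    have r2 : Bf T q p p = 0 := by rw [sw13 hT, hq1]
    have r3 : Bf T q p q = 0 := by rw [sw12 hT, hq2]
    have r4 : Bf T q q p = 0 := by rw [sw13 hT, hq2]
    intro i j k
    fin_cases i <;> fin_cases j <;> fin_cases k
    · exact hpp
    · exact hq1
    · exact r1
    · exact hq2
    · exact r2
    · exact r3
    · exact r4
    · exact hq3
  · intro v hv hB a b hab
    obtain ⟨v', hv', hspan⟩ := hSall v hv hB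
    rw [← hspan] at hab
    have hpn : p ∉ Submodule.span ℂ (Set.range v') := by
      intro h
      apply hdet v' hv'
      have h1 : (Matrix.of fun i j : Fin 3 => Bf T p (v' i) (v' j)) = 0 := by
        ext i j
        exact zero_of_mem hT (hS v' hv').2 h (Submodule.subset_span ⟨i, rfl⟩)
          (Submodule.subset_span ⟨j, rfl⟩)
      rw [h1]
      simp
    have hb : b = 0 := by
      by_contra hb
      have h1 : q + (a / b) • p ∈ Submodule.span ℂ (Set.range v') := by
        have h2 := Submodule.smul_mem _ b⁻¹ hab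
        rw [smul_add, smul_smul, smul_smul, inv_mul_cancel₀ hb, one_smul, add_comm] at h2
        rw [div_eq_inv_mul]
        exact h2
      obtain ⟨y, hy, c, hc⟩ := hY v' hv' _ h1 (-(a / b)) q (by
        rw [neg_smul, add_neg_cancel_right]) hq4 hq0 hq1 hq2
      have hy0 : y ≠ 0 := by
        rintro rfl
        rw [smul_zero] at hc
        exact hq0 hc
      have hc0 : c ≠ 0 := by
        rintro rfl
        rw [zero_smul] at hc
        exact hq0 hc
      have h3 : ∑ i, m i * y i ≠ 0 := hm y ⟨Set.mem_biUnion hv' hy, hy0⟩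
      apply h3
      have h4 : ∑ i, m i * q i = c * ∑ i, m i * y i := by
        rw [Finset.mul_sum]
        refine Finset.sum_congr rfl fun i _ => ?_
        rw [hc, Pi.smul_apply, smul_eq_mul]
        ring
      rw [hq5] at h4
      exact (mul_eq_zero.1 h4.symm).resolve_left hc0
    refine ⟨?_, hb⟩
    by_contra ha
    apply hpn
    rw [hb, zero_smul, add_zero] at hab
    have := Submodule.smul_mem _ a⁻¹ hab
    rwa [smul_smul, inv_mul_cancel₀ ha, one_smul] at this

end

end Pool.Agent.X288.NC.AVOID
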