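import Mathlib
import Pool.Agent.X288.NC.Rig

/-! # Part RIG: planes in a smooth cubic fourfold are defined over algebraically closed fields
of definition -/

set_option autoImplicit false

namespace Pool.Agent.X288.NC.RIG

open MvPolynomial Pool.Agent.Y201.C3 Pool.Agent.Y201.LI Pool.Agent.X288.NC

noncomputable section

/-- reduced echelon basis -/
theorem echelon {n : ℕ} {v : Fin 3 → Fin n → ℂ} (hv : LinearIndependent ℂ v) :
    ∃ (s : Fin 3 → Fin n) (w : Fin 3 → Fin n → ℂ), (∀ i j, w i (s j) = if i = j then 1 else 0) ∧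
      LinearIndependent ℂ w ∧ Submodule.span ℂ (Set.range w) = Submodule.span ℂ (Set.range v) := by
  classical
  let A : Matrix (Fin 3) (Fin n) ℂ := Matrix.of v
  have hrank : A.rank = 3 := by
    have := LinearIndependent.rank_matrix (M := A) hv
    simpa using this
  have hcols : Submodule.span ℂ (Set.range A.col) = ⊤ := by
    apply Submodule.eq_top_of_finrank_eq
    rw [← Matrix.rank_eq_finrank_span_cols, hrank]
    simp
  obtain ⟨κ, a, ha, hspan, hli⟩ := exists_linearIndependent' ℂ A.col
  rw [hcols] at hspan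
  have hfin : Finite κ := Finite.of_injective a ha
  have := Fintype.ofFinite κ
  have hcard : Fintype.card κ = 3 := by
    have h1 := finrank_span_eq_card hli
    rw [hspan] at h1
    simp at h1
    exact h1.symm
  let e : Fin 3 ≃ κ := (Fintype.equivFinOfCardEq hcard).symm
  let s : Fin 3 → Fin n := fun i => a (e i)
  let M : Matrix (Fin 3) (Fin 3) ℂ := Matrix.of fun i j => v i (s j)
  have hM : IsUnit M := by
    rw [← Matrix.linearIndependent_cols_iff_isUnit]
    exact hli.comp e e.injective
  have hMM : M⁻¹ * M = 1 := Matrix.nonsing_inv_mul _ ((Matrix.isUnit_iff_isUnit_det _).1 hM)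
  have hMM' : M * M⁻¹ = 1 := Matrix.mul_nonsing_inv _ ((Matrix.isUnit_iff_isUnit_det _).1 hM)
  let w : Fin 3 → Fin n → ℂ := fun i => ∑ l, M⁻¹ i l • v l
  have hws : ∀ i j, w i (s j) = if i = j then 1 else 0 := by
    intro i j
    have h1 := congrFun (congrFun hMM i) j
    rw [Matrix.mul_apply, Matrix.one_apply] at h1
    rw [← h1]
    simp [w, M]
  have hvw : ∀ i, v i = ∑ l, M i l • w l := by
    intro i
    have h2 : ∀ m, (∑ l, M i l * M⁻¹ l m) = if i = m then 1 else 0 := by
      intro m
      have := congrFun (congrFun hMM' i) m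
      rwa [Matrix.mul_apply, Matrix.one_apply] at this
    simp only [w, Finset.smul_sum, smul_smul]
    rw [Finset.sum_comm]
    simp only [← Finset.sum_smul, h2]
    simp
  refine ⟨s, w, hws, ?_, ?_⟩
  · rw [Fintype.linearIndependent_iff]
    intro g hg i
    have := congrFun hg (s i)
    simpa [hws] using this
  · apply le_antisymm
    · rw [Submodule.span_le]
      rintro _ ⟨i, rfl⟩
      exact Submodule.sum_mem _ fun l _ => Submodule.smul_mem _ _ (Submodule.subset_span ⟨l, rfl⟩)
    · rw [Submodule.span_le]
      rintro _ ⟨i, rfl⟩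
      rw [hvw i]
      exact Submodule.sum_mem _ fun l _ => Submodule.smul_mem _ _ (Submodule.subset_span ⟨l, rfl⟩)

theorem t : S_RIG := by
  intro k hk T hT hs hTk v hv h
  obtain ⟨s, w, hws, hw, hspan⟩ := echelon hv
  refine ⟨w, ?_, hw, hspan⟩
  have hwB : ∀ i j l, Bf T (w i) (w j) (w l) = 0 := by
    intro i j l
    have hm : ∀ i, w i ∈ Submodule.span ℂ (Set.range v) := fun i => by
      rw [← hspan]
      exact Submodule.subset_span ⟨i, rfl⟩
    exact zero_of_mem hT h (hm i) (hm j) (hm l)
  intro i j
  apply mem_of_der k hk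
  intro D
  have h1 := der_mem k hT hs hTk hw hwB D i
  rw [Submodule.mem_span_range_iff_exists_fun] at h1
  obtain ⟨c, hc⟩ := h1
  have hc0 : ∀ m, c m = 0 := by
    intro m
    have h2 := congrFun hc (s m)
    rw [Finset.sum_apply] at h2
    simp only [Pi.smul_apply, hws, smul_eq_mul, mul_ite, mul_one, mul_zero, Finset.sum_ite_eq',
      Finset.mem_univ, if_true] at h2
    rw [h2]
    split_ifs
    · exact D.map_one_eq_zero
    · exact map_zero D
  have h3 := congrFun hc j
  simp only [hc0, zero_smul, Finset.sum_const_zero, Pi.zero_apply] at h3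
  exact h3.symm

end

end Pool.Agent.X288.NC.RIG
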